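import Pool.Agent.TH684.LT.PTF

/-!
# `NP`-hard sets decided by one threshold gate give `P = NP`
-/

set_option autoImplicit false

namespace Pool.Agent.TH684.LT

open Pool.Agent.NPC Pool.Agent.H579R2.Spt Pool.Agent.H251R5.PQ
open Pool.Agent.TH684.EX (Exc poly_of_polyTime p_eq_np_of_exc)

/-- If some `NP`-hard set is decided by one threshold gate then `P = NP`. -/
theorem p_eq_np_of_gate {A : Set (List Bool)} (hA : NPHard A) (h : OneThresholdGate A) :
    ∀ L : Set (List Bool), InNP L → InP L := by
  obtain ⟨b, X, hX, hex⟩ := exc_of_gate h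
  exact p_eq_np_of_exc hA (par_poly (NPC.Poly.fst (NPC.Poly.snd NPC.Poly.id))
    (NPC.Poly.snd (NPC.Poly.snd NPC.Poly.id))) hX hex

/-- Sets in `P` are decided by one threshold gate. -/
theorem gate_of_inP {A : Set (List Bool)} (h : InP A) : OneThresholdGate A := by
  obtain ⟨V, hV, hVA⟩ := h
  have hVp : Poly V := PIso.poly_iff.2 hV
  -- decode the pair
  have hdec : Poly (fun z : List Bool => (unbits (List Bool × ℕ) z).getD ([], 0)) :=
    NPC.Poly.optGetD poly_unbits (NPC.Poly.const _)
  refine ⟨fun z => if V ((unbits (List Bool × ℕ) z).getD ([], 0)).1 = [true] then [1] else [0], 0,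
    polyTime_bits (NPC.Poly.ite (NPC.Poly.decide_eq (hVp.comp (NPC.Poly.fst hdec))
      (NPC.Poly.const [true])) (NPC.Poly.const _) (NPC.Poly.const _)), fun n => ?_⟩
  refine ⟨0, Nat.zero_le _, fun _ => 1, 1 / 2, fun x _ => ?_⟩
  beta_reduce
  rw [unbits_bits]
  simp only [Option.getD_some]
  rw [hVA x]
  unfold Gate
  by_cases hx : V x = [true]
  · simp only [hx, if_true, List.length_singleton, Finset.sum_range_one, List.getD_cons_zero,
      Int.cast_one, mul_one, true_iff]
    norm_num
  · simp only [hx, if_false, List.length_singleton, Finset.sum_range_one, List.getD_cons_zero,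
      Int.cast_zero, mul_zero, false_iff, not_lt]
    norm_num

/-- **One threshold gate for an `NP`-hard set.** -/
theorem gate_tfae : List.TFAE
    [∀ L : Set (List Bool), InNP L → InP L,
      ∃ A : Set (List Bool), NPHard A ∧ OneThresholdGate A,
      ∃ (A : Set (List Bool)) (k : ℕ), NPHard A ∧ OnePolynomialGate k A,
      ∀ A : Set (List Bool), InNP A → OneThresholdGate A] := by
  tfae_have 1 → 4 := fun h A hA => gate_of_inP (h A hA)
  tfae_have 4 → 2 := fun h => by
    obtain ⟨h1, h2⟩ := Pool.Agent.NPC.H545KS.sat_complete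
    exact ⟨_, h2, h _ h1⟩
  tfae_have 2 → 3 := fun ⟨A, h1, h2⟩ => ⟨A, 1, h1, ptf_of_gate h2⟩
  tfae_have 3 → 1 := fun ⟨A, k, h1, h2⟩ => p_eq_np_of_gate h1 (gate_of_ptf h2)
  tfae_finish

end Pool.Agent.TH684.LT
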