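import Pool.Agent.TH684.LT.Gate

/-!
# Polynomial threshold gates of bounded degree
-/

set_option autoImplicit false

namespace Pool.Agent.TH684.LT

open Pool.Agent.NPC Pool.Agent.H579R2.Spt Pool.Agent.H251R5.PQ
open Pool.Agent.TH684.EX (Exc poly_of_polyTime)

/-- The products of two entries, at the position given by the pairing function. -/
def sqv (v : List ℤ) : List ℤ := (List.range (v.length * v.length)).map fun j =>
  ((List.range v.length).flatMap fun i => (List.range v.length).map fun k =>
    if Nat.pair i k = j then v.getD i 0 * v.getD k 0 else 0).sum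

/-- All products of at most `2 ^ r` entries. -/
def ftv (r : ℕ) (v : List ℤ) : List ℤ := sqv^[r] (1 :: v)

theorem sqv_getD (v : List ℤ) (i k : ℕ) :
    (sqv v).getD (Nat.pair i k) 0 = v.getD i 0 * v.getD k 0 := by
  unfold sqv
  by_cases hik : i < v.length ∧ k < v.length
  · obtain ⟨hi, hk⟩ := hik
    have hlt : Nat.pair i k < v.length * v.length := by
      have h1 := Nat.pair_lt_max_add_one_sq i k
      have h2 : (max i k + 1) ^ 2 ≤ v.length ^ 2 := Nat.pow_le_pow_left (by omega) 2
      rw [← sq]
      omega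
    rw [List.getD_eq_getElem _ _ (by simpa using hlt)]
    simp only [List.getElem_map, List.getElem_range]
    rw [List.flatMap_def, List.sum_flatten, List.map_map]
    have h3 : ∀ i' ∈ List.range v.length, (List.sum ∘ fun i' => (List.range v.length).map fun k' =>
        if Nat.pair i' k' = Nat.pair i k then v.getD i' 0 * v.getD k' 0 else 0) i' =
        if i' = i then v.getD i 0 * v.getD k 0 else 0 := by
      intro i' _
      rw [Function.comp_apply]
      by_cases h : i' = i
      · subst h
        rw [if_pos rfl]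
        have h4 : ∀ k' ∈ List.range v.length,
            (if Nat.pair i' k' = Nat.pair i' k then v.getD i' 0 * v.getD k' 0 else 0) =
            if k' = k then v.getD i' 0 * v.getD k 0 else 0 := by
          intro k' _
          by_cases hk' : k' = k
          · subst hk'; simp
          · rw [if_neg hk', if_neg fun h => hk' (Nat.pair_eq_pair.1 h).2]
        rw [List.map_congr_left h4]
        have h5 : (List.range v.length).map (fun k' => if k' = k then v.getD i' 0 * v.getD k 0
            else 0) = List.ofFn fun k' : Fin v.length => if (k' : ℕ) = k then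
              v.getD i' 0 * v.getD k 0 else 0 :=
          List.ext_getElem (by simp) fun n h1 h2 => by simp
        rw [h5, List.sum_ofFn, Finset.sum_eq_single ⟨k, hk⟩]
        · simp
        · intro b _ hb
          rw [if_neg fun h => hb (Fin.ext h)]
        · simp
      · rw [if_neg h]
        refine List.sum_eq_zero fun x hx => ?_
        obtain ⟨k', _, rfl⟩ := List.mem_map.1 hx
        rw [if_neg fun h' => h (Nat.pair_eq_pair.1 h').1]
    rw [List.map_congr_left h3]
    have h5 : (List.range v.length).map (fun i' => if i' = i then v.getD i 0 * v.getD k 0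
        else 0) = List.ofFn fun i' : Fin v.length => if (i' : ℕ) = i then
          v.getD i 0 * v.getD k 0 else 0 :=
      List.ext_getElem (by simp) fun n h1 h2 => by simp
    rw [h5, List.sum_ofFn, Finset.sum_eq_single ⟨i, hi⟩]
    · simp
    · intro b _ hb
      rw [if_neg fun h => hb (Fin.ext h)]
    · simp
  · have h0 : v.getD i 0 * v.getD k 0 = 0 := by
      rcases not_and_or.1 hik with h | h
      · rw [List.getD_eq_default v _ (by omega), zero_mul]
      · rw [List.getD_eq_default v (n := k) _ (by omega), mul_zero]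
    rw [h0]
    by_cases hlt : Nat.pair i k < v.length * v.length
    · rw [List.getD_eq_getElem _ _ (by simpa using hlt)]
      simp only [List.getElem_map, List.getElem_range]
      refine List.sum_eq_zero fun x hx => ?_
      obtain ⟨i', hi', hx⟩ := List.mem_flatMap.1 hx
      obtain ⟨k', hk', rfl⟩ := List.mem_map.1 hx
      rw [if_neg fun h' => ?_]
      obtain ⟨h1, h2⟩ := Nat.pair_eq_pair.1 h'
      subst h1 h2
      exact hik ⟨List.mem_range.1 hi', List.mem_range.1 hk'⟩
    · rw [List.getD_eq_default _ _ (by simpa using not_lt.1 hlt)]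

/-- Every product of at most `2 ^ r` entries is an entry. -/
theorem ftv_prod (r : ℕ) : ∀ l : List ℕ, l.length ≤ 2 ^ r →
    ∃ j, ∀ v : List ℤ, (ftv r v).getD j 0 = (l.map fun i => v.getD i 0).prod := by
  induction r with
  | zero =>
    intro l hl
    match l, hl with
    | [], _ => exact ⟨0, fun v => by simp [ftv]⟩
    | [i], _ => exact ⟨i + 1, fun v => by simp [ftv]⟩
    | _ :: _ :: _, hl => simp at hl
  | succ r ih =>
    intro l hl
    obtain ⟨j1, h1⟩ := ih (l.take (2 ^ r)) (by simp)
    obtain ⟨j2, h2⟩ := ih (l.drop (2 ^ r)) (by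
      rw [List.length_drop, pow_succ] at *; omega)
    refine ⟨Nat.pair j1 j2, fun v => ?_⟩
    unfold ftv at h1 h2 ⊢
    rw [Function.iterate_succ_apply', sqv_getD, h1, h2, ← List.prod_append, ← List.map_append,
      List.take_append_drop]

/-- A real polynomial of degree at most `2 ^ r` is a linear form of the products. -/
theorem eval_eq_linear (r : ℕ) (p : MvPolynomial ℕ ℝ) (hp : p.totalDegree ≤ 2 ^ r) :
    ∃ w : ℕ → ℝ, ∀ v : List ℤ, MvPolynomial.eval (fun j => (v.getD j 0 : ℝ)) p =
      ∑ j ∈ Finset.range (ftv r v).length, w j * ((ftv r v).getD j 0 : ℝ) := by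
  classical
  have hmon : ∀ s ∈ p.support, ∃ j, ∀ v : List ℤ, ((ftv r v).getD j 0 : ℝ) =
      s.prod fun i e => (v.getD i 0 : ℝ) ^ e := by
    intro s hs
    have h1 : (Finsupp.toMultiset s).toList.length ≤ 2 ^ r := by
      rw [Multiset.length_toList, Finsupp.card_toMultiset]
      exact (MvPolynomial.le_totalDegree hs).trans hp
    obtain ⟨j, hj⟩ := ftv_prod r _ h1
    refine ⟨j, fun v => ?_⟩
    rw [hj v]
    push_cast
    rw [List.map_map, ← Multiset.prod_coe, ← Multiset.map_coe, Multiset.coe_toList,
      Finsupp.toMultiset_map, Finsupp.prod_toMultiset]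
    rw [Finsupp.prod_mapDomain_index]
    · rfl
    · intro _; simp
    · intro _ _ _; exact pow_add _ _ _
  choose! J hJ using hmon
  refine ⟨fun j => ∑ s ∈ p.support, if J s = j then p.coeff s else 0, fun v => ?_⟩
  rw [MvPolynomial.eval_eq]
  have h1 : ∀ j, (∑ s ∈ p.support, if J s = j then p.coeff s else 0) *
      ((ftv r v).getD j 0 : ℝ) = ∑ s ∈ p.support,
        if J s = j then p.coeff s * ((ftv r v).getD (J s) 0 : ℝ) else 0 := by
    intro j
    rw [Finset.sum_mul]
    refine Finset.sum_congr rfl fun s _ => ?_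
    by_cases h : J s = j
    · rw [if_pos h, if_pos h, h]
    · rw [if_neg h, if_neg h, zero_mul]
  rw [Finset.sum_congr rfl fun j _ => h1 j, Finset.sum_comm]
  refine Finset.sum_congr rfl fun s hs => ?_
  rw [Finset.sum_ite_eq]
  have h2 := hJ s hs v
  split_ifs with h
  · rw [h2]
    rfl
  · rw [Finset.mem_range, not_lt] at h
    have h3 : ((ftv r v).getD (J s) 0 : ℝ) = 0 := by
      rw [List.getD_eq_default _ _ h]; simp
    have h4 : s.prod (fun i e => (v.getD i 0 : ℝ) ^ e) = 0 := by rw [← h2, h3]
    have h5 : ∏ i ∈ s.support, (v.getD i 0 : ℝ) ^ s i = 0 := h4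
    rw [h5, mul_zero]

theorem sqv_poly {α : Type} [TEnc α] {v : α → List ℤ} (hv : Poly v) :
    Poly (fun a => sqv (v a)) := by
  unfold sqv
  have hL : UPoly (fun a => (v a).length) := UPoly.length hv
  have e1 : Poly (fun q : α × ℕ => q.1) := NPC.Poly.fst NPC.Poly.id
  refine NPC.Poly.map (l := fun a => List.range ((v a).length * (v a).length)) (F := fun a j =>
    ((List.range (v a).length).flatMap fun i => (List.range (v a).length).map fun k =>
      if Nat.pair i k = j then (v a).getD i 0 * (v a).getD k 0 else 0).sum) (hL.mul hL).range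
    (NPC.Poly.isum ?_)
  refine NPC.Poly.flatMap (l := fun q : α × ℕ => List.range (v q.1).length) (F := fun q i =>
    (List.range (v q.1).length).map fun k =>
      if Nat.pair i k = q.2 then (v q.1).getD i 0 * (v q.1).getD k 0 else 0)
    (hL.comp e1).range ?_
  have f1 : Poly (fun q : (α × ℕ) × ℕ => q.1.1) := NPC.Poly.fst (NPC.Poly.fst NPC.Poly.id)
  refine NPC.Poly.map (l := fun q : (α × ℕ) × ℕ => List.range (v q.1.1).length) (F := fun q k =>
    if Nat.pair q.2 k = q.1.2 then (v q.1.1).getD q.2 0 * (v q.1.1).getD k 0 else 0)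
    (hL.comp f1).range ?_
  have g1 : Poly (fun q : ((α × ℕ) × ℕ) × ℕ => q.1.1.1) :=
    NPC.Poly.fst (NPC.Poly.fst (NPC.Poly.fst NPC.Poly.id))
  have g2 : Poly (fun q : ((α × ℕ) × ℕ) × ℕ => q.1.1.2) :=
    NPC.Poly.snd (NPC.Poly.fst (NPC.Poly.fst NPC.Poly.id))
  have g3 : Poly (fun q : ((α × ℕ) × ℕ) × ℕ => q.1.2) := NPC.Poly.snd (NPC.Poly.fst NPC.Poly.id)
  have g4 : Poly (fun q : ((α × ℕ) × ℕ) × ℕ => q.2) := NPC.Poly.snd NPC.Poly.id
  have hpair : Poly (fun q : ((α × ℕ) × ℕ) × ℕ => Nat.pair q.1.2 q.2) := by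
    unfold Nat.pair
    exact NPC.Poly.ite (NPC.Poly.decide_lt g3 g4) (NPC.Poly.add (NPC.Poly.mul g4 g4) g3)
      (NPC.Poly.add (NPC.Poly.add (NPC.Poly.mul g3 g3) g3) g4)
  exact NPC.Poly.ite (NPC.Poly.decide_eq hpair g2)
    (NPC.Poly.imul (NPC.Poly.getD (hv.comp g1) g3 (NPC.Poly.const 0))
      (NPC.Poly.getD (hv.comp g1) g4 (NPC.Poly.const 0))) (NPC.Poly.const 0)

theorem ftv_poly {α : Type} [TEnc α] (r : ℕ) {v : α → List ℤ} (hv : Poly v) :
    Poly (fun a => ftv r (v a)) := by
  unfold ftv
  induction r with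
  | zero => exact NPC.Poly.cons (NPC.Poly.const 1) hv
  | succ r ih =>
    refine (sqv_poly ih).congr fun a => ?_
    rw [Function.iterate_succ_apply']

/-- One polynomial threshold gate of bounded degree is one threshold gate for other vectors. -/
theorem gate_of_ptf {A : Set (List Bool)} {k : ℕ} (h : OnePolynomialGate k A) :
    OneThresholdGate A := by
  obtain ⟨f, b, hf, h⟩ := h
  have hfp : Poly f := poly_of_polyTime hf
  refine ⟨fun z => ftv k (f z), b, polyTime_bits (ftv_poly k hfp), fun n => ?_⟩
  obtain ⟨a, ha, p, hp, hA⟩ := h n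
  obtain ⟨w, hw⟩ := eval_eq_linear k p (hp.trans Nat.lt_two_pow_self.le)
  refine ⟨a, ha, w, 0, fun x hx => ?_⟩
  rw [hA x hx, hw]
  exact Iff.rfl

/-- A threshold gate is a polynomial threshold gate of degree one. -/
theorem ptf_of_gate {A : Set (List Bool)} (h : OneThresholdGate A) : OnePolynomialGate 1 A := by
  obtain ⟨f, b, hf, h⟩ := h
  obtain ⟨q, hq⟩ := (poly_of_polyTime hf).sz_le
  refine ⟨f, b, hf, fun n => ?_⟩
  obtain ⟨a, ha, w, θ, hA⟩ := h n
  set N : ℕ := q.eval (4 * (4 * n + 4 * (n ^ b + b) + 3) + 1) with hN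
  refine ⟨a, ha, ∑ j ∈ Finset.range N, MvPolynomial.C (w j) * MvPolynomial.X j -
    MvPolynomial.C θ, ?_, fun x hx => ?_⟩
  · refine (MvPolynomial.totalDegree_sub_C_le _ _).trans ?_
    refine (MvPolynomial.totalDegree_finsetSum_le fun j _ => ?_)
    refine (MvPolynomial.totalDegree_mul _ _).trans ?_
    rw [MvPolynomial.totalDegree_C, MvPolynomial.totalDegree_X]
  · rw [hA x hx, Gate]
    have h1 : (f (bits (x, a))).length ≤ N := by
      have h2 := hq (bits (x, a))
      have h3 := length_lt_sz (f (bits (x, a)))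
      have h4 := sz_listBool_le (bits (x, a))
      rw [bits_length, sz_pair] at h4
      have h5 := sz_listBool_le x
      have h6 := sz_nat_le a
      have h7 := NPC.Poly.size_le_self a
      have h8 : sz (bits (x, a)) ≤ 4 * (4 * n + 4 * (n ^ b + b) + 3) + 1 := by omega
      have h9 := eval_mono q h8
      omega
    have h2 : ∑ j ∈ Finset.range (f (bits (x, a))).length, w j * ((f (bits (x, a))).getD j 0 : ℝ) =
        ∑ j ∈ Finset.range N, w j * ((f (bits (x, a))).getD j 0 : ℝ) := by
      refine Finset.sum_subset (Finset.range_subset_range.2 h1) fun j _ hj => ?_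
      rw [Finset.mem_range, not_lt] at hj
      rw [List.getD_eq_default _ _ hj]
      simp
    rw [h2]
    simp [map_sub, map_sum, map_mul]

end Pool.Agent.TH684.LT
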